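import Pool.Agent.Helper4.PQ0.St
import Pool.Agent.Helper16.OS.M_TWA

/-!
# Project PQS, module TWC: `2 ≤ a` implies `a = 2`
-/

set_option autoImplicit false

namespace Pool.Agent.Helper36.PQ0

open Matrix ComplexConjugate Pool.Agent.Helper94.YF Pool.Agent.Helper94.YG
open Pool.Agent.Helper89.OS hiding PD Cx Blk B0 Orb StXA StXB StXC StXE StCGR StISO StBLK StAMG StHEC StSTL StMZZ StDRE StTSU
open Pool.Agent.Helper89.OC hiding Ks gX OB Lk StORB StTS2 StLKD StTAN
open Pool.Agent.Helper4.PQ0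

open Classical in
/-- TWC -/
theorem hTWC : StTWC := by
  intro I _ _ p a X ha
  have hp := X.prime
  have hF : Fact p.Prime := ⟨hp⟩
  have hp3 : 3 ≤ p := by
    have h2 := hp.two_le
    rcases Nat.lt_or_ge p 3 with h | h
    · exfalso
      have e : p = 2 := by omega
      have := X.p_odd
      rw [e] at this
      exact absurd this (by decide)
    · exact h
  have hNZ : NeZero (p ^ a) := ⟨pow_ne_zero _ hp.ne_zero⟩
  -- sum of squares
  have hyy : ∑ k, X.y k ^ 2 = (p : ℤ) ^ 2 := by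
    have h := X.s_uni X.o X.o
    rw [if_pos rfl] at h
    have e : ∀ k, X.s X.o k * conj (X.s X.o k) = ((X.y k ^ 2 : ℤ) : ℂ) := by
      intro k
      rw [X.s_symm, X.s_o]
      have : conj ((X.y k : ℤ) : ℂ) = ((X.y k : ℤ) : ℂ) := by
        rw [← Complex.ofReal_intCast, Complex.conj_ofReal]
      rw [this]
      push_cast
      ring
    rw [Finset.sum_congr rfl (fun k _ => e k)] at h
    exact_mod_cast h
  obtain ⟨k0, hk0, hk0t⟩ := X.ex
  set E : Finset I := Finset.univ.filter fun k => X.y k ≠ 0 ∧ X.t k ^ (p ^ (a - 1)) ≠ 1 with hE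
  have hEm : ∀ k, k ∈ E ↔ X.y k ≠ 0 ∧ X.t k ^ (p ^ (a - 1)) ≠ 1 := by
    intro k
    rw [hE, Finset.mem_filter]
    exact ⟨fun h => h.2, fun h => ⟨Finset.mem_univ _, h⟩⟩
  have hprim : IsPrimitiveRoot (X.t k0) (p ^ a) := by
    have h1 : X.t k0 ^ p ^ ((a - 1) + 1) = 1 := by
      have : a - 1 + 1 = a := by omega
      rw [this]
      exact X.t_pow k0
    have h2 := orderOf_eq_prime_pow hk0t h1
    have h3 : a - 1 + 1 = a := by omega
    rw [h3] at h2
    rw [← h2]
    exact IsPrimitiveRoot.orderOf _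
  have hcE : ∀ c : (ZMod (p ^ a))ˣ, X.pi c k0 ∈ E := by
    intro c
    rw [hEm]
    refine ⟨by rw [X.pi_y]; exact hk0, ?_⟩
    intro h
    apply hk0t
    have h1 : X.pi c⁻¹ (X.pi c k0) = k0 := by
      rw [← X.pi_mul, inv_mul_cancel, X.pi_one]
    have h2 := X.pi_t c⁻¹ (X.pi c k0)
    rw [h1] at h2
    rw [h2, ← pow_mul, mul_comm, pow_mul, h, one_pow]
  have hφ : Nat.totient (p ^ a) ≤ 2 * E.card := by
    set S2 : Finset ℂ := Finset.univ.image
      (fun c : (ZMod (p ^ a))ˣ => X.t k0 ^ ((c : ZMod (p ^ a)) ^ 2).val) with hS2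
    have h1 : (Finset.univ : Finset (ZMod (p ^ a))ˣ).card ≤ 2 * S2.card := by
      refine Finset.card_le_mul_card_image _ 2 ?_
      intro b hb
      rw [Finset.mem_image] at hb
      obtain ⟨c0, -, hc0⟩ := hb
      refine le_trans (Finset.card_le_card (t := {c0, -c0}) ?_) Finset.card_le_two
      intro c hc
      rw [Finset.mem_filter] at hc
      have h2 := hc.2.trans hc0.symm
      have h3 := hprim.pow_inj (ZMod.val_lt _) (ZMod.val_lt _) h2
      have h4 := Pool.Agent.Helper16.OS.TWA_sq hp X.p_odd (by omega) c c0 (ZMod.val_injective _ h3)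
      rw [Finset.mem_insert, Finset.mem_singleton]
      exact h4
    have h2 : S2.card ≤ E.card := by
      refine le_trans (Finset.card_le_card (t := E.image X.t) ?_) Finset.card_image_le
      intro b hb
      rw [hS2, Finset.mem_image] at hb
      obtain ⟨c, -, hc⟩ := hb
      rw [Finset.mem_image]
      exact ⟨X.pi c k0, hcE c, by rw [X.pi_t]; exact hc⟩
    have h3 : (Finset.univ : Finset (ZMod (p ^ a))ˣ).card = Nat.totient (p ^ a) := by
      rw [Finset.card_univ, ZMod.card_units_eq_totient]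
    rw [← h3]
    exact h1.trans (Nat.mul_le_mul_left 2 h2)
  -- some `k1` with `t k1 = 1`, `y k1 ≠ 0`
  obtain ⟨k1, hk1t, hk1⟩ : ∃ k1, X.t k1 = 1 ∧ X.y k1 ≠ 0 := by
    by_contra hcon
    have h2 : ∑ i, X.y i * (X.kap i : ℤ) = 0 := by
      refine Finset.sum_eq_zero ?_
      intro i _
      by_cases h3 : X.kap i = 0
      · rw [h3]
        simp
      · have h4 := X.kap_t i h3
        by_cases h5 : X.y i = 0
        · rw [h5, zero_mul]
        · exact absurd ⟨i, h4, h5⟩ hcon
    rw [X.kap_y] at h2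
    have h3 : (p : ℤ) ≠ 0 := by
      have := hp.ne_zero
      exact_mod_cast this
    exact h3 h2
  have hk1E : k1 ∉ E := by
    intro h
    apply ((hEm k1).1 h).2
    rw [hk1t, one_pow]
  have hEy : ((E.card : ℤ) + 1) ≤ ∑ k ∈ insert k1 E, X.y k ^ 2 := by
    have h0 : ((insert k1 E).card : ℤ) = ∑ k ∈ insert k1 E, (1 : ℤ) := by simp
    have h1 : ((E.card : ℤ) + 1) = ((insert k1 E).card : ℤ) := by
      rw [Finset.card_insert_of_notMem hk1E]
      push_cast
      ring
    rw [h1, h0]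
    refine Finset.sum_le_sum ?_
    intro k hk
    have h2 : X.y k ≠ 0 := by
      rcases Finset.mem_insert.1 hk with h | h
      · rw [h]; exact hk1
      · exact ((hEm k).1 h).1
    have := sq_pos_of_ne_zero h2
    linarith
  have hEp : ∑ k ∈ insert k1 E, X.y k ^ 2 ≤ (p : ℤ) ^ 2 := by
    rw [← hyy]
    exact Finset.sum_le_sum_of_subset_of_nonneg (Finset.subset_univ _) (fun k _ _ => sq_nonneg _)
  have hEc : E.card + 1 ≤ p ^ 2 := by
    have := hEy.trans hEp
    exact_mod_cast this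
  by_contra hne
  have ha3 : 2 ≤ a - 1 := by omega
  have e : Nat.totient (p ^ a) = p ^ (a - 1) * (p - 1) := Nat.totient_prime_pow hp (by omega)
  have h1 : p ^ 2 ≤ p ^ (a - 1) := Nat.pow_le_pow_right hp.pos ha3
  have h2 : p ^ 2 * 2 ≤ p ^ (a - 1) * (p - 1) := Nat.mul_le_mul h1 (by omega)
  rw [e] at hφ
  omega

end Pool.Agent.Helper36.PQ0
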